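import Pool.Agent.H99.RR.YRes
import Pool.Agent.H71.ER.Box

/-! # MP_537ea0_ag : zero-cycles on powers of elliptic surfaces

`W : y^2 = x^3 - 3 a x - 2 b` over a smooth projective curve `B` in the weighted projective space `ℙ(v)`, `a`, `b` forms of degrees `4n`, `6n` on `B`.  Voisin's conjecture on zero-cycles for
elliptic surfaces with section and nonconstant `j`-invariant: for `k ≥ n d + g` (`d` the degree of `O(1)`, `g` the genus of `B`; `n d + g = p_g + 1` if the equation is minimal) the alternating
exterior product of `k` zero-cycles of degree zero is torsion in the Chow group of zero-cycles of `W^k`. -/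

namespace Pool.Agent.Results.MP_537ea0_ag.EllipticSurfaces

open ES RR

/-- Let `K` be an algebraically closed field of characteristic zero, `W` a Weierstrass model `y^2 = x^3 - 3 a x - 2 b` of weight `n > 0` over a smooth projective curve `B = {I = 0}` in
`ℙ(v)` of genus `g` with `deg O(1) = d` (`SmC`), such that `a^3` and `b^2` are linearly independent modulo `(I)` (the `j`-invariant is not constant), and let `k ≥ n d + g`.
For all zero-cycles `z_1, .., z_k` of degree zero on `W` the cycle `∑_σ sgn(σ) z_σ(1) × .. × z_σ(k)` has a positive multiple which is rationally equivalent to zero on `W^k`. -/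
theorem result (K : Type) [Field K] [IsAlgClosed K] [CharZero K] (s d g k : ℕ) (W : Wm K s) (hW : W.Ok) (hB : SmC W.v W.I d g)
    (hab : ∀ c e : K, MvPolynomial.C c * W.a ^ 3 - MvPolynomial.C e * W.b ^ 2 ∈ Ideal.span W.I → c = 0 ∧ e = 0)
    (hk : W.n * d + g ≤ k) (z : Fin k → (Pt s K →₀ ℤ)) (hz : ∀ i, ∀ P ∈ (z i).support, OnW W P)
    (h0 : ∀ i, ((z i).sum fun _ c => c) = 0) : ∃ N : ℕ, 0 < N ∧ N • altz z ∈ RatEq k W :=
  altz_mem h0 fun _ hP => main_sm hW hB hab hk fun i => hz i _ (hP i)

end Pool.Agent.Results.MP_537ea0_ag.EllipticSurfaces
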